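import Pool.Agent.L7h42.Theta.Final

/-!
# The theta graph `Θ_{3,3,3}` is metrizable

Every consistent path system in `Θ_{3,3,3}` is induced by positive edge weights. There are 96 paths
with distinct ends, up to reversal. A decision tree asks which of them belong to the path system and
ends with weights that make all paths optimal which are still possible; the kernel checks the tree.
-/

set_option autoImplicit false

namespace Pool.Agent.Results.MP_d7339e_co.ThetaThree

open Pool.Agent.L7h42.Theta

/-- `Θ_{3,3,3}` is metrizable. -/
theorem result : Metrizable theta333 := metrizable_theta333

end Pool.Agent.Results.MP_d7339e_co.ThetaThree
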